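import Pool.Agent.H63.ME.Bad

/-!
# Loci of the meromorphic extension property in deformations

The meromorphic extension property of compact complex manifolds is not open in deformations
(library: `Pool.Graph.R_seed8.Results.MP_55bc5f_an.Openness`, one deformation of threefolds). Here:
in every dimension `n ≥ 3` and for every holomorphic function `h` on the disc there is a deformation
over the disc, with fibres of dimension `n`, for which the set of the points whose fibres have the
extension property is exactly the zero set of `h`; off this set the deformation is locally (even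
globally) trivial. So every closed discrete subset of the disc is such a locus.

The family is the quotient of the open subset `{(t, ζ, z, w, u) : |t| < 1, ζ ≠ h(t) conj(z)}` of
`ℂ⁴ × ℂᵐ` by the group `(ℤ ⋉ ℤ[i]²) × ℤ[i]ᵐ` of the holomorphic transformations
`(t, ζ, z, w, u) ↦ (t, λᵏ ζ + h(t) conj(a), λᵏ z + a, λ⁻ᵏ w + b, u + v)`, where `λ` is the square of
the golden ratio.
-/

namespace Pool.Agent.Results.MP_55bc5f_an.ExtensionLoci

open Set Metric
open scoped Manifold
open Pool.Agent.Helper417.Mer Pool.Agent.H63.ME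

/-- Let `m ≥ 0` and let `h` be a holomorphic function on the open unit disc `Δ`. There is a complex
deformation `π : M → Δ` with fibres of dimension `3 + m` (the total space has dimension `4 + m`)
such that for all `t` in `Δ`

* if `h t = 0`, then the fibre over `t` has the holomorphic extension property and the meromorphic
  extension property;
* if `h t ≠ 0`, then the fibre over `t` does not have the meromorphic extension property;

moreover the deformation is trivial off the zeros of `h`: if `h t₀ ≠ 0`, then a holomorphic map `Ψ`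
from `π⁻¹ {h ≠ 0}` to `M` maps each fibre over a point `t` with `h t ≠ 0` bijectively (so
biholomorphically) onto the fibre over `t₀`. -/
theorem result (m : ℕ) (h : ℂ → ℂ) (hh : DifferentiableOn ℂ h (ball 0 1)) :
    ∃ (M : Type) (_ : TopologicalSpace M)
      (_ : ChartedSpace ((ℂ × ℂ × ℂ × ℂ) × (Fin m → ℂ)) M) (π : M → ℂ),
      IsComplexDeformation ((ℂ × ℂ × ℂ × ℂ) × (Fin m → ℂ)) π ∧
      (∀ t ∈ ball (0 : ℂ) 1, h t = 0 →
        HasHolomorphicExtension ((ℂ × ℂ × ℂ × ℂ) × (Fin m → ℂ)) (π ⁻¹' {t}) ∧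
        HasMeromorphicExtension ((ℂ × ℂ × ℂ × ℂ) × (Fin m → ℂ)) (π ⁻¹' {t})) ∧
      (∀ t ∈ ball (0 : ℂ) 1, h t ≠ 0 →
        ¬ HasMeromorphicExtension ((ℂ × ℂ × ℂ × ℂ) × (Fin m → ℂ)) (π ⁻¹' {t})) ∧
      ∀ t₀ ∈ ball (0 : ℂ) 1, h t₀ ≠ 0 → ∃ Ψ : M → M,
        MDifferentiableOn 𝓘(ℂ, (ℂ × ℂ × ℂ × ℂ) × (Fin m → ℂ)) 𝓘(ℂ, (ℂ × ℂ × ℂ × ℂ) × (Fin m → ℂ))
          Ψ {y | h (π y) ≠ 0} ∧
        ∀ t ∈ ball (0 : ℂ) 1, h t ≠ 0 → BijOn Ψ (π ⁻¹' {t}) (π ⁻¹' {t₀}) := by
  have hT2 := (fam hh m).t2
  refine ⟨(fam hh m).Tot, inferInstance, (fam hh m).quot.cs, (fam hh m).proj,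
    (fam hh m).isComplexDeformation, fun t ht hz => ?_, fun t ht hz =>
      not_hasMeromorphicExtension hh (by simpa using ht) hz, fun t₀ ht₀ hz₀ => ?_⟩
  · have h1 := extClosed (m := m) hh (by simpa using ht) hz
    exact ⟨hasHolomorphicExtension h1, hasMeromorphicExtension' h1⟩
  · obtain ⟨Ψ, h1, h2⟩ := exists_trivialization (m := m) hh (t₀ := t₀) (by simpa using ht₀) hz₀
    exact ⟨Ψ, h1, fun t ht hz => h2 t (by simpa using ht) hz⟩

end Pool.Agent.Results.MP_55bc5f_an.ExtensionLoci
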